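import Pool.Agent.H30.LFN.Conv

/-!
The Lipschitz-free space over `ℝ × ℤ` is not isomorphic to the Lipschitz-free space over the
plane.
-/

open LFN

namespace Pool.Agent.Results.MP_71cd47_an.NotIsomorphic

/-- There is no bounded linear bijection from the Lipschitz-free space `X` over `ℝ × ℤ` onto the
Lipschitz-free space `Y` over the Euclidean plane (any base points; both spaces exist). -/
theorem result (o : RZ) (p : Plane) : HasFree o ∧ HasFree p ∧
    ∀ (X Y : Type) [NormedAddCommGroup X] [NormedSpace ℝ X] [NormedAddCommGroup Y]
      [NormedSpace ℝ Y] (δ : RZ → X) (ε : Plane → Y), IsFree o δ → IsFree p ε →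
      ¬ Isomorphic X Y :=
  LFN.main o p

end Pool.Agent.Results.MP_71cd47_an.NotIsomorphic
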